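import Pool.Agent.Y808.LB.Stm4

/-!
# Project LB: adjoining a separating transcendence basis to a discrete valuation ring
-/

set_option autoImplicit false

open Polynomial IsLocalRing

noncomputable section

namespace Pool.Agent.Y232.LB

open Pool.Agent.Y808.LB

section tv

variable {V B : Type} [CommRing V] [IsLocalRing V] [CommRing B] [IsLocalRing B] [Algebra V B]
  [IsLocalHom (algebraMap V B)]

/-- residues of values -/
theorem residue_aeval {σ : Type} (T : σ → B) (f : MvPolynomial σ V) :
    residue B (MvPolynomial.aeval T f) =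
      MvPolynomial.aeval (fun i => residue B (T i)) (MvPolynomial.map (residue V) f) := by
  have h : (residue B).comp (MvPolynomial.aeval T : MvPolynomial σ V →ₐ[V] B).toRingHom =
      (MvPolynomial.aeval (R := ResidueField V) (fun i => residue B (T i))).toRingHom.comp
        (MvPolynomial.map (residue V)) := by
    apply MvPolynomial.ringHom_ext
    · intro r
      simp
    · intro i
      simp
  exact congrArg (fun g => g f) h

end tv

/-- TV -/
theorem t_TV : S_TV := by
  intro V B _ _ _ π _ _ _ _ hπ hsg
  obtain ⟨s, hs, hsep⟩ := hsg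
  choose T hT using fun i : s => residue_surjective (R := B) (i : ResidueField B)
  have hmV : maximalIdeal V = Ideal.span {π} := hπ.maximalIdeal_eq
  obtain ⟨ev, hev⟩ : ∃ ev : MvPolynomial s V →ₐ[V] B, ev = MvPolynomial.aeval T := ⟨_, rfl⟩
  have hker : ∀ f : MvPolynomial s V, ev f ∈ maximalIdeal B ↔
      f ∈ Ideal.span {MvPolynomial.C (σ := s) π} := by
    intro f
    rw [← residue_eq_zero_iff, hev, residue_aeval]
    have h1 : (fun i => residue B (T i)) = ((↑) : s → ResidueField B) := funext hT
    rw [h1]
    have hinj := hs.1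
    rw [AlgebraicIndependent, injective_iff_map_eq_zero] at hinj
    have h2 : MvPolynomial.aeval ((↑) : s → ResidueField B) (MvPolynomial.map (residue V) f) = 0 ↔
        MvPolynomial.map (residue V) f = 0 :=
      ⟨hinj _, fun h => by rw [h, map_zero]⟩
    rw [h2, ← RingHom.mem_ker, MvPolynomial.ker_map, ker_residue, hmV, Ideal.map_span,
      Set.image_singleton]
  let 𝔭 : Ideal (MvPolynomial s V) := (maximalIdeal B).comap ev.toRingHom
  have hpp : 𝔭.IsPrime := Ideal.comap_isPrime _ _
  have h𝔭 : 𝔭 = Ideal.span {MvPolynomial.C (σ := s) π} := by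
    ext f
    exact hker f
  let W : Type := Localization.AtPrime 𝔭
  have hinjW : Function.Injective (algebraMap (MvPolynomial s V) W) :=
    IsLocalization.injective W 𝔭.primeCompl_le_nonZeroDivisors
  have hmW : maximalIdeal W = Ideal.span {algebraMap (MvPolynomial s V) W (MvPolynomial.C π)} := by
    have h1 : Ideal.map (algebraMap (MvPolynomial s V) W) 𝔭 = maximalIdeal W :=
      Localization.AtPrime.map_eq_maximalIdeal (I := 𝔭)
    have h2 : Ideal.map (algebraMap (MvPolynomial s V) W) 𝔭 =
        Ideal.map (algebraMap (MvPolynomial s V) W) (Ideal.span {MvPolynomial.C (σ := s) π}) :=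
      congrArg (Ideal.map (algebraMap (MvPolynomial s V) W)) h𝔭
    rw [← h1, h2, Ideal.map_span, Set.image_singleton]
  have hϖ0 : algebraMap (MvPolynomial s V) W (MvPolynomial.C π) ≠ 0 := by
    rw [Ne, map_eq_zero_iff _ hinjW, MvPolynomial.C_eq_zero]
    exact hπ.ne_zero
  have hnf : ¬ IsField W := by
    rw [IsLocalRing.isField_iff_maximalIdeal_eq, hmW, Ideal.span_singleton_eq_bot]
    exact hϖ0
  have hNoe : IsNoetherianRing W := IsLocalization.isNoetherianRing 𝔭.primeCompl W inferInstance
  have hdvr : IsDiscreteValuationRing W := by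
    have := (IsDiscreteValuationRing.TFAE W hnf).out 0 4
    rw [this]
    exact ⟨⟨_, hmW⟩⟩
  have hunit : ∀ y : 𝔭.primeCompl, IsUnit (ev.toRingHom y) := by
    intro y
    by_contra h
    exact y.2 ((mem_maximalIdeal _).2 h)
  let lft : W →+* B := IsLocalization.lift (M := 𝔭.primeCompl) (S := W) hunit
  let alg : Algebra W B := lft.toAlgebra
  have halg : ∀ f : MvPolynomial s V, algebraMap W B (algebraMap (MvPolynomial s V) W f) = ev f :=
    fun f => IsLocalization.lift_eq (M := 𝔭.primeCompl) (S := W) hunit f
  have hVW : ∀ v : V, algebraMap V W v = algebraMap (MvPolynomial s V) W (MvPolynomial.C v) := by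
    intro v
    rw [IsScalarTower.algebraMap_apply V (MvPolynomial s V) W, MvPolynomial.algebraMap_eq]
  have htow : IsScalarTower V W B := by
    refine IsScalarTower.of_algebraMap_eq fun v => ?_
    rw [hVW, halg, ← MvPolynomial.algebraMap_eq, AlgHom.commutes]
  have hloc1 : IsLocalHom (algebraMap V W) := by
    refine ⟨fun v hv => ?_⟩
    have h1 := hv.map (algebraMap W B)
    rw [← IsScalarTower.algebraMap_apply V W B] at h1
    exact isUnit_of_map_unit (algebraMap V B) v h1
  have hloc2 : IsLocalHom (algebraMap W B) := by
    refine ⟨fun w hw => ?_⟩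
    by_contra hn
    have h1 : w ∈ maximalIdeal W := (mem_maximalIdeal _).2 hn
    rw [hmW, Ideal.mem_span_singleton] at h1
    obtain ⟨c, rfl⟩ := h1
    rw [map_mul, halg] at hw
    have h2 : IsUnit (ev (MvPolynomial.C π)) := isUnit_of_mul_isUnit_left hw
    have h3 : ev (MvPolynomial.C π) ∈ maximalIdeal B :=
      (hker _).2 (Ideal.subset_span rfl)
    exact (mem_maximalIdeal _).1 h3 h2
  refine ⟨W, inferInstance, inferInstance, hdvr, inferInstance, alg, htow, hloc1, hloc2, ?_, ?_⟩
  · rw [hVW, IsDiscreteValuationRing.irreducible_iff_uniformizer]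
    exact hmW
  · -- the residue fields
    let κ := ResidueField V
    let k' := ResidueField W
    let L := ResidueField B
    let F : IntermediateField κ L := (IsScalarTower.toAlgHom κ k' L).fieldRange
    have hle : IntermediateField.adjoin κ (s : Set L) ≤ F := by
      rw [IntermediateField.adjoin_le_iff]
      intro i hi
      refine ⟨residue W (algebraMap (MvPolynomial s V) W (MvPolynomial.X ⟨i, hi⟩)), ?_⟩
      change algebraMap k' L (residue W _) = i
      rw [ResidueField.algebraMap_residue, halg, hev, MvPolynomial.aeval_X, hT]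
    have hE : ∀ e : IntermediateField.adjoin κ (s : Set L), ∃ y : k', algebraMap k' L y = e :=
      fun e => hle e.2
    choose ψ hψ using hE
    have hinj : Function.Injective (algebraMap k' L) := (algebraMap k' L).injective
    let ψ' : IntermediateField.adjoin κ (s : Set L) →+* k' :=
      { toFun := ψ
        map_one' := hinj (by rw [hψ, map_one]; rfl)
        map_mul' := fun a b => hinj (by rw [hψ, map_mul, hψ, hψ]; rfl)
        map_zero' := hinj (by rw [hψ, map_zero]; rfl)
        map_add' := fun a b => hinj (by rw [hψ, map_add, hψ, hψ]; rfl) }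
    let alg' : Algebra (IntermediateField.adjoin κ (s : Set L)) k' := ψ'.toAlgebra
    have htow' : IsScalarTower (IntermediateField.adjoin κ (s : Set L)) k' L :=
      IsScalarTower.of_algebraMap_eq fun e => (hψ e).symm
    exact Algebra.isSeparable_tower_top_of_isSeparable
      (IntermediateField.adjoin κ (s : Set L)) k' L

end Pool.Agent.Y232.LB
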